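import Mathlib

/-!
# Diversity-seeking jump games on trees need not be weakly acyclic

A tree with 20 nodes, 19 agents of two types and one empty node such that improving jumps are
forced to run for ever around a cycle of four type patterns.
-/

set_option autoImplicit false
set_option linter.unusedSectionVars false

namespace Pool.Agent.Results.MP_39759c_lc.ForcedCycle

section Defs

variable {V A T : Type} [DecidableEq T]

/-- The agents on nodes adjacent to the node of agent `i`. -/
def neighbours (G : SimpleGraph V) (σ : A ↪ V) (i : A) : Set A :=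
  {j | G.Adj (σ i) (σ j)}

/-- The utility of agent `i`: the fraction of the neighbouring agents that are of another type,
and `0` if there is no neighbouring agent. -/
noncomputable def utility (G : SimpleGraph V) (ty : A → T) (σ : A ↪ V) (i : A) : ℚ :=
  if (neighbours G σ i).ncard = 0 then 0
  else ({j ∈ neighbours G σ i | ty j ≠ ty i}.ncard : ℚ) / (neighbours G σ i).ncard

/-- `τ` arises from `σ` by an improving jump: one agent moves to a node that was empty, and its
utility strictly increases. -/
def ImprovingJump (G : SimpleGraph V) (ty : A → T) (σ τ : A ↪ V) : Prop :=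
  ∃ i : A, (∀ j, σ j ≠ τ i) ∧ (∀ j, j ≠ i → τ j = σ j) ∧ utility G ty σ i < utility G ty τ i

/-- No agent has an improving jump. -/
def IsEquilibrium (G : SimpleGraph V) (ty : A → T) (σ : A ↪ V) : Prop :=
  ∀ τ, ¬ ImprovingJump G ty σ τ

end Defs

/-! ### The type patterns -/

section Pattern

variable {V A T : Type} [Fintype V] [Finite A] [DecidableEq V] [DecidableEq T]

/-- `σ` realises the pattern `c` of types on the nodes (`none` for an empty node). -/
def Realises (ty : A → T) (σ : A ↪ V) (c : V → Option T) : Prop :=
  ∀ v t, c v = some t ↔ ∃ i, σ i = v ∧ ty i = t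

/-- number of occupied neighbours of `v` in the pattern `c` -/
def occ (G : SimpleGraph V) [DecidableRel G.Adj] (c : V → Option T) (v : V) : ℕ :=
  (Finset.univ.filter fun w => G.Adj v w ∧ c w ≠ none).card

/-- number of neighbours of `v` in the pattern `c` with a type different from `t` -/
def dif (G : SimpleGraph V) [DecidableRel G.Adj] (c : V → Option T) (v : V) (t : T) : ℕ :=
  (Finset.univ.filter fun w => G.Adj v w ∧ c w ≠ none ∧ c w ≠ some t).card

theorem Realises.some {ty : A → T} {σ : A ↪ V} {c : V → Option T} (h : Realises ty σ c) (i : A) :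
    c (σ i) = some (ty i) := (h _ _).2 ⟨i, rfl, rfl⟩

theorem Realises.exists {ty : A → T} {σ : A ↪ V} {c : V → Option T} (h : Realises ty σ c) {v : V}
    (hv : c v ≠ none) : ∃ i, σ i = v := by
  obtain ⟨t, ht⟩ := Option.ne_none_iff_exists'.1 hv
  obtain ⟨i, hi, -⟩ := (h _ _).1 ht
  exact ⟨i, hi⟩

theorem ncard_neighbours (G : SimpleGraph V) [DecidableRel G.Adj] {ty : A → T} {σ : A ↪ V}
    {c : V → Option T} (h : Realises ty σ c) (i : A) :
    (neighbours G σ i).ncard = occ G c (σ i) := by
  rw [← Set.ncard_image_of_injective _ σ.injective, occ, ← Set.ncard_coe_finset]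
  congr 1
  ext w
  simp only [neighbours, Set.mem_image, Set.mem_ofPred_eq, Finset.coe_filter, Finset.mem_univ,
    true_and]
  constructor
  · rintro ⟨j, hj, rfl⟩
    exact ⟨hj, by rw [h.some j]; simp⟩
  · rintro ⟨hw, hc⟩
    obtain ⟨j, rfl⟩ := h.exists hc
    exact ⟨j, hw, rfl⟩

theorem ncard_different (G : SimpleGraph V) [DecidableRel G.Adj] {ty : A → T} {σ : A ↪ V}
    {c : V → Option T} (h : Realises ty σ c) (i : A) :
    {j ∈ neighbours G σ i | ty j ≠ ty i}.ncard = dif G c (σ i) (ty i) := by
  rw [← Set.ncard_image_of_injective _ σ.injective, dif, ← Set.ncard_coe_finset]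
  congr 1
  ext w
  simp only [neighbours, Set.mem_image, Set.mem_ofPred_eq, Finset.coe_filter, Finset.mem_univ,
    true_and]
  constructor
  · rintro ⟨j, ⟨hj, ht⟩, rfl⟩
    refine ⟨hj, by rw [h.some j]; simp, ?_⟩
    rw [h.some j]
    simpa using ht
  · rintro ⟨hw, hc, ht⟩
    obtain ⟨j, rfl⟩ := h.exists hc
    refine ⟨j, ⟨hw, ?_⟩, rfl⟩
    rw [h.some j] at ht
    simpa using ht

theorem utility_eq (G : SimpleGraph V) [DecidableRel G.Adj] {ty : A → T} {σ : A ↪ V}
    {c : V → Option T} (h : Realises ty σ c) (i : A) :
    utility G ty σ i = (dif G c (σ i) (ty i) : ℚ) / occ G c (σ i) := by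
  rw [utility, ncard_neighbours G h, ncard_different G h]
  split_ifs with h0
  · simp [h0]
  · rfl

/-- The pattern after the agent of type `t` on `v` has moved to `w`. -/
def move (c : V → Option T) (v w : V) (t : T) : V → Option T :=
  fun x => if x = w then some t else if x = v then none else c x

theorem Realises.move {ty : A → T} {σ τ : A ↪ V} {c : V → Option T} (h : Realises ty σ c) {i : A}
    (h1 : ∀ j, σ j ≠ τ i) (h2 : ∀ j, j ≠ i → τ j = σ j) :
    Realises ty τ (move c (σ i) (τ i) (ty i)) := by
  intro x t
  unfold ForcedCycle.move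
  split_ifs with hx hx'
  · subst hx
    constructor
    · intro ht
      exact ⟨i, rfl, by simpa using ht⟩
    · rintro ⟨j, hj, rfl⟩
      rw [τ.injective hj]
  · subst hx'
    constructor
    · intro ht
      cases ht
    · rintro ⟨j, hj, rfl⟩
      by_cases hji : j = i
      · subst hji
        exact absurd hj.symm hx
      · rw [h2 j hji] at hj
        exact absurd (σ.injective hj) hji
  · rw [h x t]
    constructor
    · rintro ⟨j, rfl, rfl⟩
      refine ⟨j, h2 j ?_, rfl⟩
      rintro rfl
      exact hx' rfl
    · rintro ⟨j, rfl, rfl⟩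
      by_cases hji : j = i
      · subst hji
        exact absurd rfl hx
      · exact ⟨j, (h2 j hji).symm, rfl⟩

/-- Comparison of two fractions of natural numbers by multiplying out. -/
theorem div_lt_div_nat {a b a' b' : ℕ} (hb : b = 0 → a = 0) (hb' : b' = 0 → a' = 0) :
    (a : ℚ) / b < (a' : ℚ) / b' ↔ (a * b' < a' * b ∨ (b = 0 ∧ 0 < a')) := by
  rcases Nat.eq_zero_or_pos b with rfl | hbp
  · rcases Nat.eq_zero_or_pos b' with rfl | hbp'
    · simp [hb rfl, hb' rfl]
    · have : (0 : ℚ) < b' := by exact_mod_cast hbp'
      simp [hb rfl, div_pos_iff_of_pos_right this]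
  · rcases Nat.eq_zero_or_pos b' with rfl | hbp'
    · have : (0 : ℚ) ≤ (a : ℚ) / b := by positivity
      simp [hb' rfl, this]
    · have h1 : (0 : ℚ) < b := by exact_mod_cast hbp
      have h2 : (0 : ℚ) < b' := by exact_mod_cast hbp'
      rw [div_lt_div_iff₀ h1 h2]
      constructor
      · intro h
        exact Or.inl (by exact_mod_cast h)
      · rintro (h | ⟨h, -⟩)
        · exact_mod_cast h
        · omega

theorem dif_eq_zero_of_occ (G : SimpleGraph V) [DecidableRel G.Adj] (c : V → Option T) (v : V)
    (t : T) (h : occ G c v = 0) : dif G c v t = 0 := by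
  rw [occ, Finset.card_eq_zero, Finset.filter_eq_empty_iff] at h
  rw [dif, Finset.card_eq_zero, Finset.filter_eq_empty_iff]
  intro w hw hd
  exact h hw ⟨hd.1, hd.2.1⟩

/-- The move from `v` to `w` of an agent of type `t` is improving, in terms of patterns. -/
def Better (G : SimpleGraph V) [DecidableRel G.Adj] (c : V → Option T) (v w : V) (t : T) : Prop :=
  dif G c v t * occ G (move c v w t) w < dif G (move c v w t) w t * occ G c v ∨
    (occ G c v = 0 ∧ 0 < dif G (move c v w t) w t)

instance (G : SimpleGraph V) [DecidableRel G.Adj] (c : V → Option T) (v w : V) (t : T) :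
    Decidable (Better G c v w t) := by unfold Better; infer_instance

theorem better_iff (G : SimpleGraph V) [DecidableRel G.Adj] {ty : A → T} {σ τ : A ↪ V}
    {c : V → Option T} (h : Realises ty σ c) {i : A}
    (h1 : ∀ j, σ j ≠ τ i) (h2 : ∀ j, j ≠ i → τ j = σ j) :
    utility G ty σ i < utility G ty τ i ↔ Better G c (σ i) (τ i) (ty i) := by
  rw [utility_eq G h, utility_eq G (h.move h1 h2),
    div_lt_div_nat (dif_eq_zero_of_occ G _ _ _) (dif_eq_zero_of_occ G _ _ _)]
  rfl

end Pattern

/-! ### The tree -/

/-- Parents of the nodes `1, …, 19`. -/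
def par : Fin 20 → Fin 20 :=
  ![0, 0, 1, 2, 0, 4, 1, 6, 1, 8, 1, 10, 2, 12, 2, 14, 2, 16, 3, 18]

/-- The tree: a path `0 - 1 - 2 - 3`, with three, three, one and one pendant paths of length two at
the nodes `1`, `2`, `0` and `3`. -/
def tree : SimpleGraph (Fin 20) where
  Adj u v := (u ≠ 0 ∧ v = par u) ∨ (v ≠ 0 ∧ u = par v)
  symm := ⟨fun _ _ h => h.symm⟩
  loopless := ⟨by decide⟩

instance : DecidableRel tree.Adj := fun u v =>
  inferInstanceAs (Decidable ((u ≠ 0 ∧ v = par u) ∨ (v ≠ 0 ∧ u = par v)))

theorem par_lt : ∀ v : Fin 20, v ≠ 0 → par v < v := by decide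

theorem tree_connected : tree.Connected := by
  have key : ∀ n : ℕ, ∀ v : Fin 20, v.val = n → tree.Reachable v 0 := by
    intro n
    induction n using Nat.strong_induction_on with
    | _ n ih =>
      intro v hv
      by_cases h0 : v = 0
      · subst h0
        exact SimpleGraph.Reachable.refl _
      · have hadj : tree.Adj v (par v) := Or.inl ⟨h0, rfl⟩
        have hlt : (par v).val < n := by
          rw [← hv]
          exact par_lt v h0
        exact hadj.reachable.trans (ih _ hlt _ rfl)
  have : Nonempty (Fin 20) := ⟨0⟩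
  exact SimpleGraph.Connected.mk fun u v => (key _ u rfl).trans (key _ v rfl).symm

theorem tree_card : tree.edgeFinset.card = 19 := by
  decide +kernel

theorem tree_isTree : tree.IsTree := by
  rw [SimpleGraph.isTree_iff_connected_and_card]
  refine ⟨tree_connected, ?_⟩
  rw [Nat.card_eq_fintype_card, Nat.card_eq_fintype_card, ← SimpleGraph.edgeFinset_card, tree_card]
  rfl

/-! ### The four patterns -/

/-- The empty node of the four patterns. -/
def hole : Fin 4 → Fin 20 := ![0, 1, 3, 2]

/-- The type of the agent on a node (if it is occupied). -/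
def colour : Fin 20 → Fin 2 :=
  ![1, 1, 1, 1, 0, 1, 0, 1, 0, 1, 0, 1, 0, 1, 0, 1, 0, 1, 0, 1]

/-- The four patterns. -/
def pat (s : Fin 4) (v : Fin 20) : Option (Fin 2) :=
  if v = hole s then none else some (colour v)

/-- The only improving jump in pattern `s` is that of the agent on the empty node of the next
pattern. -/
theorem forced : ∀ s : Fin 4, ∀ v : Fin 20, v ≠ hole s →
    (Better tree (pat s) v (hole s) (colour v) ↔ v = hole (s + 1)) := by
  decide +kernel

theorem pat_move : ∀ s : Fin 4, ∀ x : Fin 20,
    move (pat s) (hole (s + 1)) (hole s) (colour (hole (s + 1))) x = pat (s + 1) x := by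
  decide +kernel

/-- The types of the agents; agent `i` starts on node `i + 1`. -/
def ty (i : Fin 19) : Fin 2 := colour i.succ

theorem realises_zero : Realises ty (Fin.succEmb 19) (pat 0) := by
  intro v t
  induction v using Fin.cases with
  | zero =>
    constructor
    · intro h
      simp [pat, hole] at h
    · rintro ⟨i, hi, -⟩
      exact absurd hi (Fin.succ_ne_zero i)
  | succ i =>
    have h1 : pat 0 i.succ = some (colour i.succ) := by
      have : i.succ ≠ hole 0 := Fin.succ_ne_zero i
      simp only [pat, if_neg this]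
    rw [h1]
    constructor
    · intro h
      exact ⟨i, rfl, Option.some_injective _ h⟩
    · rintro ⟨j, hj, rfl⟩
      have : j = i := Fin.succ_injective _ hj
      rw [this]
      rfl

theorem pat_next : ∀ s : Fin 4, pat s (hole (s + 1)) = some (colour (hole (s + 1))) := by
  decide

theorem exists_agent {σ : Fin 19 ↪ Fin 20} {s : Fin 4} (h : Realises ty σ (pat s)) :
    ∃ i, σ i = hole (s + 1) ∧ ty i = colour (hole (s + 1)) := by
  exact (h _ _).1 (pat_next s)

theorem step {σ τ : Fin 19 ↪ Fin 20} {s : Fin 4} (h : Realises ty σ (pat s))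
    (hj : ImprovingJump tree ty σ τ) : Realises ty τ (pat (s + 1)) := by
  obtain ⟨i, h1, h2, h3⟩ := hj
  rw [better_iff tree h h1 h2] at h3
  have hτ : τ i = hole s := by
    by_contra hne
    have : pat s (τ i) ≠ none := by
      simp [pat, hne]
    obtain ⟨j, hj⟩ := h.exists this
    exact h1 j hj
  have hσ : pat s (σ i) = some (ty i) := h.some i
  have hne : σ i ≠ hole s := by
    rw [← hτ]
    exact h1 i
  have hc : ty i = colour (σ i) := by
    rw [pat, if_neg hne] at hσ
    simpa using hσ.symm
  rw [hτ, hc, forced s _ hne] at h3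
  have h4 := h.move h1 h2
  rw [hτ, hc, h3] at h4
  have h5 : move (pat s) (hole (s + 1)) (hole s) (colour (hole (s + 1))) = pat (s + 1) :=
    funext (pat_move s)
  rwa [h5] at h4

theorem not_eq {σ : Fin 19 ↪ Fin 20} {s : Fin 4} (h : Realises ty σ (pat s)) :
    ¬ IsEquilibrium tree ty σ := by
  intro he
  obtain ⟨i, hi, hc⟩ := exists_agent h
  have hempty : ∀ j, σ j ≠ hole s := by
    intro j hj
    have := h.some j
    rw [hj, pat, if_pos rfl] at this
    cases this
  have hinj : Function.Injective (Function.update σ i (hole s)) := by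
    intro a b hab
    by_cases ha : a = i <;> by_cases hb : b = i
    · rw [ha, hb]
    · subst ha
      rw [Function.update_self, Function.update_of_ne hb] at hab
      exact absurd hab.symm (hempty b)
    · subst hb
      rw [Function.update_self, Function.update_of_ne ha] at hab
      exact absurd hab (hempty a)
    · rw [Function.update_of_ne ha, Function.update_of_ne hb] at hab
      exact σ.injective hab
  let τ : Fin 19 ↪ Fin 20 := ⟨Function.update σ i (hole s), hinj⟩
  have hτi : τ i = hole s := Function.update_self _ _ _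
  have h1 : ∀ j, σ j ≠ τ i := by
    rw [hτi]
    exact hempty
  have h2 : ∀ j, j ≠ i → τ j = σ j := fun j hj => Function.update_of_ne hj _ _
  refine he τ ⟨i, h1, h2, ?_⟩
  rw [better_iff tree h h1 h2, hτi, hc, hi]
  have hne : hole (s + 1) ≠ hole s := by
    rw [← hi]
    exact hempty i
  exact (forced s _ hne).2 rfl

/-- There is a tree with 20 nodes, 19 agents of two types (both used) and an initial assignment
from which no finite sequence of improving jumps reaches an equilibrium. -/
theorem result :
    ∃ (G : SimpleGraph (Fin 20)) (ty : Fin 19 → Fin 2) (σ : Fin 19 ↪ Fin 20),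
      G.IsTree ∧ Function.Surjective ty ∧
        ∀ τ : Fin 19 ↪ Fin 20, Relation.ReflTransGen (ImprovingJump G ty) σ τ →
          ¬ IsEquilibrium G ty τ := by
  refine ⟨tree, ty, (Fin.succEmb 19), tree_isTree, ?_, ?_⟩
  · intro t
    fin_cases t
    · exact ⟨3, rfl⟩
    · exact ⟨0, rfl⟩
  · intro τ hτ
    have : ∃ s, Realises ty τ (pat s) := by
      induction hτ with
      | refl => exact ⟨0, realises_zero⟩
      | tail _ hj ih =>
        obtain ⟨s, hs⟩ := ih
        exact ⟨s + 1, step hs hj⟩
    obtain ⟨s, hs⟩ := this
    exact not_eq hs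

end Pool.Agent.Results.MP_39759c_lc.ForcedCycle
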